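import Pool.Agent.helper82.T6.SpecL2
import Pool.Agent.helper8.FT.P1

set_option autoImplicit false

namespace Pool.Agent.T6

open Finset Pool.Agent.helper3.FT

/-! ## decomposition of `d` -/

theorem ED_dvd_prod {S : Finset ℕ} {f : ℕ → ℕ} (hS : ∀ x ∈ S, x.Prime) {p : ℕ} (hp : p.Prime)
    (h : p ∣ ∏ x ∈ S, x ^ f x) : p ∈ S := by
  obtain ⟨x, hx, h1⟩ := (hp.prime.dvd_finsetProd_iff _).1 h
  have h2 := hp.dvd_of_dvd_pow h1
  rw [(Nat.prime_dvd_prime_iff_eq hp (hS x hx)).1 h2]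
  exact hx

theorem ED_prt (j d : ℕ) (hd : d ≠ 0) : ∃ h : ℕ, prt j d * h = d ∧ Nat.Coprime (prt j d) h ∧
    (∀ p : ℕ, p.Prime → p ∣ prt j d → Nat.log 2 p < j) ∧ ∀ p : ℕ, p.Prime → p ∣ h → j ≤ Nat.log 2 p := by
  set h : ℕ := ∏ p ∈ d.primeFactors.filter (fun p => ¬ Nat.log 2 p < j), p ^ d.factorization p with hh
  have h1 : prt j d * h = d := by
    unfold prt
    rw [hh, Finset.prod_filter_mul_prod_filter_not]
    have := Nat.prod_factorization_pow_eq_self hd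
    rwa [Nat.prod_factorization_eq_prod_primeFactors] at this
  have h2 : ∀ p : ℕ, p.Prime → p ∣ prt j d → Nat.log 2 p < j := by
    intro p hp hpd
    have := ED_dvd_prod (fun x hx => Nat.prime_of_mem_primeFactors (Finset.mem_filter.1 hx).1) hp hpd
    exact (Finset.mem_filter.1 this).2
  have h3 : ∀ p : ℕ, p.Prime → p ∣ h → j ≤ Nat.log 2 p := by
    intro p hp hpd
    have := ED_dvd_prod (fun x hx => Nat.prime_of_mem_primeFactors (Finset.mem_filter.1 hx).1) hp hpd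
    exact not_lt.1 (Finset.mem_filter.1 this).2
  refine ⟨h, h1, ?_, h2, h3⟩
  refine Nat.coprime_of_dvd fun p hp hp1 hp2 => ?_
  exact absurd (h2 p hp hp1) (not_lt.2 (h3 p hp hp2))

/-! ## numerical facts -/

theorem ED_sum (j N : ℕ) (hj : 1 ≤ j) : ∑ J ∈ Ico j N, (1 : ℝ) / (J : ℝ) ^ 2 ≤ 2 / j := by
  have hj' : (0 : ℝ) < j := by exact_mod_cast hj
  have key : ∀ n : ℕ, ∑ J ∈ Ico j (j + n), (1 : ℝ) / (J : ℝ) ^ 2 ≤ 2 / j - 2 / (j + n : ℕ) := by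
    intro n
    induction n with
    | zero => simp
    | succ n ih =>
      rw [← add_assoc, Finset.sum_Ico_succ_top (by omega)]
      have h0 : (0 : ℝ) < ((j + n : ℕ) : ℝ) := by
        have : 0 < j + n := by omega
        exact_mod_cast this
      have h1' : (1 : ℝ) ≤ ((j + n : ℕ) : ℝ) := by
        have : 1 ≤ j + n := by omega
        exact_mod_cast this
      have h1 : (1 : ℝ) / ((j + n : ℕ) : ℝ) ^ 2 ≤ 2 / ((j + n : ℕ) : ℝ) - 2 / ((j + n + 1 : ℕ) : ℝ) := by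
        set a : ℝ := ((j + n : ℕ) : ℝ) with ha
        have h2 : ((j + n + 1 : ℕ) : ℝ) = a + 1 := by push_cast [ha]; ring
        rw [h2, div_sub_div _ _ h0.ne' (by positivity), div_le_div_iff₀ (by positivity) (by positivity)]
        nlinarith
      linarith
  rcases le_or_gt j N with h | h
  · obtain ⟨n, rfl⟩ := Nat.exists_eq_add_of_le h
    have h2 : (0 : ℝ) ≤ 2 / ((j + n : ℕ) : ℝ) := by positivity
    linarith [key n]
  · rw [Finset.Ico_eq_empty (by omega)]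
    simp
    positivity

theorem ED_log (k n : ℕ) : ((n : ℝ) + 1) ^ k ≤ 2 ^ (k + 1) * (k.factorial : ℝ) * 2 ^ n := by
  have h1 := Real.pow_div_factorial_le_exp (((n : ℝ) + 1) * Real.log 2)
    (by have := Real.log_pos (one_lt_two (α := ℝ)); positivity) k
  have h2 : Real.exp (((n : ℝ) + 1) * Real.log 2) = 2 ^ (n + 1) := by
    rw [mul_comm, Real.exp_mul, Real.exp_log two_pos]
    have : ((n : ℝ) + 1) = ((n + 1 : ℕ) : ℝ) := by push_cast; ring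
    rw [this, Real.rpow_natCast]
  rw [h2, mul_pow, div_le_iff₀ (by positivity)] at h1
  have h3 : (1 : ℝ) / 2 ≤ Real.log 2 := by
    have := Real.log_two_gt_d9
    linarith
  have h4 : ((1 : ℝ) / 2) ^ k ≤ Real.log 2 ^ k := pow_le_pow_left₀ (by norm_num) h3 k
  have h5 : ((n : ℝ) + 1) ^ k * (1 / 2) ^ k ≤ 2 ^ (n + 1) * (k.factorial : ℝ) :=
    (mul_le_mul_of_nonneg_left h4 (by positivity)).trans h1
  have h6 : (2 : ℝ) ^ k * (1 / 2) ^ k = 1 := by rw [← mul_pow]; norm_num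
  calc ((n : ℝ) + 1) ^ k = 2 ^ k * (((n : ℝ) + 1) ^ k * (1 / 2) ^ k) := by
        rw [mul_left_comm, h6, mul_one]
    _ ≤ 2 ^ k * (2 ^ (n + 1) * (k.factorial : ℝ)) := mul_le_mul_of_nonneg_left h5 (by positivity)
    _ = 2 ^ (k + 1) * (k.factorial : ℝ) * 2 ^ n := by ring

/-! ## primes attached to `v` -/

theorem ED_PV {y p : ℕ} {v : V4} (hy : 5 ≤ y) (h : PV y v p) : (p : ℤ) ∣ RV v := by
  obtain ⟨hp, hyp, r, hr, h1, h2⟩ := h
  refine dvd_Rf _ _ _ _ _ r 1 ?_ h1 h2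
  rw [mul_one]
  have h3 : Nat.Coprime p 5 := by
    rw [Nat.coprime_primes hp (by norm_num)]
    omega
  exact_mod_cast Nat.isCoprime_iff_coprime.2 h3

open Classical in
/-- the primes attached to `v` in the blocks `≥ j` -/
noncomputable def ED_W (y j : ℕ) (v : V4) : Finset ℕ :=
  (RV v).natAbs.primeFactors.filter (fun p => PV y v p ∧ j ≤ Nat.log 2 p)

theorem ED_memW {y j p : ℕ} {v : V4} (hy : 5 ≤ y) (hv : RV v ≠ 0) :
    p ∈ ED_W y j v ↔ PV y v p ∧ j ≤ Nat.log 2 p := by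
  classical
  unfold ED_W
  rw [Finset.mem_filter]
  refine ⟨fun h => h.2, fun h => ⟨?_, h⟩⟩
  rw [Nat.mem_primeFactors]
  refine ⟨h.1.1, ?_, Int.natAbs_ne_zero.2 hv⟩
  exact Int.natCast_dvd.1 (ED_PV hy h.1)

theorem ED_cardW {y j q q' l l' : ℕ} {v : V4} (hy : 5 ≤ y) (hv : RV v ≠ 0)
    (hq : ∀ p : ℕ, p.Prime → p ∣ q → Nat.log 2 p < j) (hq' : ∀ p : ℕ, p.Prime → p ∣ q' → Nat.log 2 p < j)
    (hl : l.Prime) (hl' : l'.Prime) :
    (ED_W y j v).card ≤ 2 + wj y j (q * q' * l * l') v := by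
  classical
  have h1 : wj y j (q * q' * l * l') v = ((ED_W y j v).filter (fun p => ¬ p ∣ q * q' * l * l')).card := by
    unfold wj
    rw [← Set.ncard_coe_finset]
    congr 1
    ext p
    simp only [Set.mem_ofPred_eq, Finset.coe_filter]
    rw [ED_memW hy hv]
    tauto
  have h2 : ((ED_W y j v).filter (fun p => p ∣ q * q' * l * l')) ⊆ {l, l'} := by
    intro p hp
    rw [Finset.mem_filter, ED_memW hy hv] at hp
    obtain ⟨⟨hp1, hp2⟩, hp3⟩ := hp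
    rw [Finset.mem_insert, Finset.mem_singleton]
    rcases (hp1.1.dvd_mul).1 hp3 with h | h
    · rcases (hp1.1.dvd_mul).1 h with h | h
      · rcases (hp1.1.dvd_mul).1 h with h | h
        · exact absurd (hq p hp1.1 h) (not_lt.2 hp2)
        · exact absurd (hq' p hp1.1 h) (not_lt.2 hp2)
      · exact Or.inl ((Nat.prime_dvd_prime_iff_eq hp1.1 hl).1 h)
    · exact Or.inr ((Nat.prime_dvd_prime_iff_eq hp1.1 hl').1 h)
  have h3 := Finset.card_filter_add_card_filter_not (s := ED_W y j v) (fun p => p ∣ q * q' * l * l')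
  have h4 : ((ED_W y j v).filter (fun p => p ∣ q * q' * l * l')).card ≤ 2 :=
    (Finset.card_le_card h2).trans Finset.card_le_two
  rw [h1]
  omega

/-! ## one cell -/

theorem ED_mod (hN3 : N3_stmt) {d r r' : ℕ} {v : V4} (h : r' ≡ r [MOD d]) (hG : InG d r v) : InG d r' v := by
  have h1 : InG 1 r' v := ⟨by simp, by simp⟩
  have := hN3 d 1 r r' r' v (Nat.coprime_one_right d) hG h1 h (Nat.ModEq.refl _)
  rwa [mul_one] at this

theorem ED_dvd {d d' r : ℕ} {v : V4} (h : d' ∣ d) (hG : InG d r v) : InG d' r v :=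
  ⟨(Int.natCast_dvd_natCast.2 h).trans hG.1, (Int.natCast_dvd_natCast.2 h).trans hG.2⟩

theorem ED_cell (hN3 : N3_stmt) (hNRT : NRT_stmt) {y j q ρ : ℕ} (hy : 5 ≤ y) (v : V4) (hv : RV v ≠ 0)
    (T : Finset (ℕ × ℕ)) (hT : ∀ p ∈ T, prt j p.1 = q ∧ p.2 ≡ ρ [MOD q] ∧ p.2 < p.1 ∧ Nat.Coprime p.2 p.1 ∧
      Rgh y p.1 ∧ InG p.1 p.2 v ∧ Pm p.1 v ∧ ∀ l : ℕ, l.Prime → j ≤ Nat.log 2 l → ¬ l ^ 2 ∣ p.1) :
    T.card ≤ 4 ^ (ED_W y j v).card := by
  classical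
  -- the cofactor
  have hco : ∀ p ∈ T, ∃ h : ℕ, p.1 = q * h ∧ Nat.Coprime q h ∧ 1 ≤ h ∧ h = ∏ x ∈ h.primeFactors, x ∧
      h.primeFactors ⊆ ED_W y j v ∧ Rgh 5 h ∧ Pm h v ∧ InG h p.2 v ∧ Nat.Coprime p.2 h ∧ p.1 / q = h := by
    intro p hp
    obtain ⟨h1, h2, h3, h4, h5, h6, h7, h8⟩ := hT p hp
    have hd : p.1 ≠ 0 := by omega
    obtain ⟨h, e1, e2, e3, e4⟩ := ED_prt j p.1 hd
    rw [h1] at e1 e2
    have hh : h ≠ 0 := by
      rintro rfl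
      exact hd (by rw [← e1, mul_zero])
    have hq0 : q ≠ 0 := by
      rintro rfl
      exact hd (by rw [← e1, zero_mul])
    have hdvd : h ∣ p.1 := ⟨q, by rw [← e1, mul_comm]⟩
    have hsq : Squarefree h := by
      rw [Nat.squarefree_iff_prime_squarefree]
      intro x hx hxx
      refine h8 x hx (e4 x hx (dvd_trans (dvd_mul_right x x) hxx)) ?_
      rw [sq]
      exact hxx.trans hdvd
    refine ⟨h, e1.symm, e2, Nat.one_le_iff_ne_zero.2 hh, (Nat.prod_primeFactors_of_squarefree hsq).symm, ?_, ?_, ?_,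
      ED_dvd hdvd h6, h4.coprime_dvd_right hdvd, ?_⟩
    · intro x hx
      have hx1 := Nat.prime_of_mem_primeFactors hx
      have hx2 := Nat.dvd_of_mem_primeFactors hx
      rw [ED_memW hy hv]
      refine ⟨⟨hx1, h5 x hx1 (hx2.trans hdvd), p.2, h4.coprime_dvd_right (hx2.trans hdvd),
        ED_dvd (hx2.trans hdvd) h6⟩, e4 x hx1 hx2⟩
    · intro x hx hxh
      exact lt_of_le_of_lt hy (h5 x hx (hxh.trans hdvd))
    · intro x hx hxh
      exact h7 x hx (hxh.trans hdvd)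
    · rw [← e1, Nat.mul_div_cancel_left _ (Nat.pos_of_ne_zero hq0)]
  have hmap : (T : Set (ℕ × ℕ)).MapsTo (fun p => (p.1 / q).primeFactors) ((ED_W y j v).powerset : Finset (Finset ℕ)) := by
    intro p hp
    obtain ⟨h, e1, e2, e3, e4, e5, e6, e7, e8, e9, e10⟩ := hco p hp
    simp only [Finset.coe_powerset, Set.mem_preimage, Set.mem_powerset_iff, Finset.coe_subset]
    rw [e10]
    exact e5
  rw [Finset.card_eq_sum_card_fiberwise hmap]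
  have hfib : ∀ S ∈ (ED_W y j v).powerset, (T.filter (fun p => (p.1 / q).primeFactors = S)).card ≤
      3 ^ S.card * 1 ^ ((ED_W y j v).card - S.card) := by
    intro S _
    rw [one_pow, mul_one]
    rcases (T.filter (fun p => (p.1 / q).primeFactors = S)).eq_empty_or_nonempty with he | ⟨p0, hp0⟩
    · rw [he]
      simp
    obtain ⟨hp0T, hp0S⟩ := Finset.mem_filter.1 hp0
    obtain ⟨h, e1, e2, e3, e4, e5, e6, e7, e8, e9, e10⟩ := hco p0 hp0T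
    rw [e10] at hp0S
    have hS : ∀ p ∈ T.filter (fun p => (p.1 / q).primeFactors = S), p.1 = q * h ∧ InG h p.2 v ∧
        Nat.Coprime p.2 h := by
      intro p hp
      obtain ⟨hpT, hpS⟩ := Finset.mem_filter.1 hp
      obtain ⟨h', e1', e2', e3', e4', e5', e6', e7', e8', e9', e10'⟩ := hco p hpT
      have : h' = h := by
        rw [e4', e4]
        rw [e10'] at hpS
        rw [hpS, hp0S]
      subst this
      exact ⟨e1', e8', e9'⟩
    have h3 := hNRT h v e3 e6 e7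
    rw [hp0S] at h3
    refine le_trans ?_ h3
    refine Finset.card_le_card_of_injOn (fun p => p.2 % h) ?_ ?_
    · intro p hp
      obtain ⟨k1, k2, k3⟩ := hS p hp
      rw [Finset.mem_coe, Finset.mem_filter, Finset.mem_range]
      have hm : p.2 % h ≡ p.2 [MOD h] := Nat.mod_modEq _ _
      refine ⟨Nat.mod_lt _ e3, ?_, ED_mod hN3 hm k2⟩
      have := hm.gcd_eq
      rw [Nat.coprime_iff_gcd_eq_one] at k3 ⊢
      rw [this, k3]
    · intro p hp p' hp' hpp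
      obtain ⟨k1, k2, k3⟩ := hS p hp
      obtain ⟨k1', k2', k3'⟩ := hS p' hp'
      have hpT := (Finset.mem_filter.1 hp).1
      have hpT' := (Finset.mem_filter.1 hp').1
      obtain ⟨-, m2, m3, -⟩ := hT p hpT
      obtain ⟨-, m2', m3', -⟩ := hT p' hpT'
      have hmod1 : p.2 ≡ p'.2 [MOD h] := hpp
      have hmod2 : p.2 ≡ p'.2 [MOD q] := m2.trans m2'.symm
      have hmod : p.2 ≡ p'.2 [MOD q * h] := (Nat.modEq_and_modEq_iff_modEq_mul e2).1 ⟨hmod2, hmod1⟩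
      rw [k1] at m3
      rw [k1'] at m3'
      have heq : p.2 = p'.2 := Nat.ModEq.eq_of_lt_of_lt hmod m3 m3'
      exact Prod.ext (by rw [k1, k1']) heq
  refine (Finset.sum_le_sum hfib).trans (le_of_eq ?_)
  rw [Finset.sum_pow_mul_eq_add_pow]

/-! ## the pairs with given `q, q', l, l'` -/

theorem ED_block (hN3 : N3_stmt) (hNRT : NRT_stmt) {C : ℝ} {C₁ : ℕ}
    (hML : ∀ (b : ℝ) (u : ℕ) (s : ℝ), MR b u s → ∀ (y m r j : ℕ) (F : Finset V4), 5 ≤ y → 1 ≤ m → Rgh y m →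
      (m : ℝ) ≤ (2 : ℝ) ^ ((u : ℝ) / 10) → 1 ≤ j → j ≤ u →
      (∀ v ∈ F, RV v ≠ 0 ∧ InG m r v ∧ nrm b v ≤ √(2 ^ u) / s ^ 2) →
      ∑ v ∈ F, (4 : ℝ) ^ wj y j m v ≤ C * ((4 ^ u / s ^ 8) / (m : ℝ) ^ 2) * ((u : ℝ) / j) ^ C₁)
    {b : ℝ} {u : ℕ} {s : ℝ} (hM : MR b u s) {y j q q' l l' : ℕ} (hy : 5 ≤ y)
    (hq : ∀ p : ℕ, p.Prime → p ∣ q → Nat.log 2 p < j) (hq' : ∀ p : ℕ, p.Prime → p ∣ q' → Nat.log 2 p < j)
    (hl : l.Prime) (hl' : l'.Prime) (hm1 : 1 ≤ q * q' * l * l') (hmR : Rgh y (q * q' * l * l'))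
    (hmu : ((q * q' * l * l' : ℕ) : ℝ) ≤ (2 : ℝ) ^ ((u : ℝ) / 10)) (hj : 1 ≤ j) (hju : j ≤ u)
    (T : Finset (ℕ × ℕ)) (hT : ∀ p ∈ T, prt j p.1 = q ∧ p.2 < p.1 ∧ Nat.Coprime p.2 p.1 ∧
      Rgh y p.1 ∧ InG p.1 p.2 (vv b p.1 p.2) ∧ Pm p.1 (vv b p.1 p.2) ∧ RV (vv b p.1 p.2) ≠ 0 ∧
      nrm b (vv b p.1 p.2) ≤ √(2 ^ u) / s ^ 2 ∧ (∀ l : ℕ, l.Prime → j ≤ Nat.log 2 l → ¬ l ^ 2 ∣ p.1) ∧
      ∃ ρ : ℕ, InG (q * q' * l * l') ρ (vv b p.1 p.2) ∧ p.2 ≡ ρ [MOD q]) :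
    (T.card : ℝ) ≤ 16 * C * (4 ^ u / s ^ 8) * ((u : ℝ) / j) ^ C₁ * (1 / ((q * q' * l * l' : ℕ) : ℝ)) := by
  classical
  set m : ℕ := q * q' * l * l' with hm
  set VT : Finset V4 := T.image (fun p => vv b p.1 p.2) with hVT
  have hcov : T ⊆ (range m).biUnion fun ρ => (VT.filter (fun v => InG m ρ v)).biUnion fun v =>
      T.filter (fun p => vv b p.1 p.2 = v ∧ p.2 ≡ ρ [MOD q]) := by
    intro p hp
    obtain ⟨-, -, -, -, -, -, -, -, -, ρ, h1, h2⟩ := hT p hp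
    rw [Finset.mem_biUnion]
    refine ⟨ρ % m, Finset.mem_range.2 (Nat.mod_lt _ hm1), ?_⟩
    rw [Finset.mem_biUnion]
    refine ⟨vv b p.1 p.2, ?_, ?_⟩
    · rw [Finset.mem_filter]
      exact ⟨Finset.mem_image_of_mem _ hp, ED_mod hN3 (Nat.mod_modEq _ _) h1⟩
    · rw [Finset.mem_filter]
      refine ⟨hp, rfl, ?_⟩
      have h3 : ρ % m ≡ ρ [MOD q] := by
        have h4 : ρ % m ≡ ρ [MOD m] := Nat.mod_modEq _ _
        exact h4.of_dvd ⟨q' * l * l', by rw [hm]; ring⟩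
      exact h2.trans h3.symm
  have hcell : ∀ ρ ∈ range m, ∀ v ∈ VT.filter (fun v => InG m ρ v),
      ((T.filter (fun p => vv b p.1 p.2 = v ∧ p.2 ≡ ρ [MOD q])).card : ℝ) ≤ 16 * 4 ^ wj y j m v := by
    intro ρ _ v hv
    rw [Finset.mem_filter, hVT, Finset.mem_image] at hv
    obtain ⟨⟨p0, hp0, hpv⟩, -⟩ := hv
    have hRV : RV v ≠ 0 := by
      rw [← hpv]
      exact (hT p0 hp0).2.2.2.2.2.2.1
    have h1 := ED_cell hN3 hNRT (j := j) (q := q) (ρ := ρ) hy v hRV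
      (T.filter (fun p => vv b p.1 p.2 = v ∧ p.2 ≡ ρ [MOD q])) (by
        intro p hp
        obtain ⟨hpT, hpv', hpρ⟩ := Finset.mem_filter.1 hp
        obtain ⟨k1, k2, k3, k4, k5, k6, k7, k8, k9, -⟩ := hT p hpT
        rw [hpv'] at k5 k6
        exact ⟨k1, hpρ, k2, k3, k4, k5, k6, k9⟩)
    have h2 := ED_cardW (y := y) (v := v) hy hRV hq hq' hl hl'
    rw [← hm] at h2
    have h3 : (T.filter (fun p => vv b p.1 p.2 = v ∧ p.2 ≡ ρ [MOD q])).card ≤ 4 ^ (2 + wj y j m v) :=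
      h1.trans (Nat.pow_le_pow_right (by norm_num) h2)
    calc ((T.filter (fun p => vv b p.1 p.2 = v ∧ p.2 ≡ ρ [MOD q])).card : ℝ)
        ≤ ((4 ^ (2 + wj y j m v) : ℕ) : ℝ) := by exact_mod_cast h3
      _ = 16 * 4 ^ wj y j m v := by push_cast; rw [pow_add]; norm_num
  have h1 : (T.card : ℝ) ≤ ∑ ρ ∈ range m, ∑ v ∈ VT.filter (fun v => InG m ρ v),
      ((T.filter (fun p => vv b p.1 p.2 = v ∧ p.2 ≡ ρ [MOD q])).card : ℝ) := by
    have h2 := (Finset.card_le_card hcov).trans (Finset.card_biUnion_le.trans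
      (Finset.sum_le_sum fun ρ _ => Finset.card_biUnion_le))
    exact_mod_cast h2
  have hm0 : (0 : ℝ) < (m : ℝ) := by exact_mod_cast hm1
  have h3 : ∀ ρ ∈ range m, ∑ v ∈ VT.filter (fun v => InG m ρ v),
      ((T.filter (fun p => vv b p.1 p.2 = v ∧ p.2 ≡ ρ [MOD q])).card : ℝ) ≤
      16 * (C * ((4 ^ u / s ^ 8) / (m : ℝ) ^ 2) * ((u : ℝ) / j) ^ C₁) := by
    intro ρ hρ
    refine (Finset.sum_le_sum (hcell ρ hρ)).trans ?_
    rw [← Finset.mul_sum]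
    refine mul_le_mul_of_nonneg_left (hML b u s hM y m ρ j _ hy hm1 hmR hmu hj hju ?_) (by norm_num)
    intro v hv
    rw [Finset.mem_filter, hVT, Finset.mem_image] at hv
    obtain ⟨⟨p0, hp0, hpv⟩, hG⟩ := hv
    obtain ⟨-, -, -, -, -, -, k7, k8, -, -⟩ := hT p0 hp0
    rw [hpv] at k7 k8
    exact ⟨k7, hG, k8⟩
  refine h1.trans ((Finset.sum_le_sum h3).trans (le_of_eq ?_))
  rw [Finset.sum_const, Finset.card_range, nsmul_eq_mul]
  field_simp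

/-! ## the sum over `q', l, l'` -/

theorem ED_pbsum (hP1 : P1_stmt) {y j N : ℕ} (hj : 1 ≤ j) (Q : Finset ℕ) {P : ℝ}
    (hQ : ∑ q' ∈ Q, (1 : ℝ) / q' ≤ P) (q : ℕ) (D : ℝ) (hD : 0 ≤ D) :
    ∑ q' ∈ Q, ∑ J ∈ Ico j N, ∑ l ∈ pb y J, ∑ l' ∈ pb y J, D * (1 / ((q * q' * l * l' : ℕ) : ℝ)) ≤
      D * ((1 : ℝ) / q * P) * (32 / j) := by
  have hj0 : (0 : ℝ) < j := by exact_mod_cast hj
  have hS : ∀ q' : ℕ, ∀ J ∈ Ico j N, ∑ l ∈ pb y J, ∑ l' ∈ pb y J, D * (1 / ((q * q' * l * l' : ℕ) : ℝ)) ≤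
      D * (1 / q) * (1 / q') * (16 * (1 / (J : ℝ) ^ 2)) := by
    intro q' J hJ
    have hJ1 : 1 ≤ J := hj.trans (Finset.mem_Ico.1 hJ).1
    have hJ0 : (0 : ℝ) < J := by exact_mod_cast hJ1
    have h1 := hP1 y J hJ1
    have h0 : (0 : ℝ) ≤ ∑ p ∈ pb y J, (1 : ℝ) / p := Finset.sum_nonneg fun p _ => by positivity
    have h2 : ∑ l ∈ pb y J, ∑ l' ∈ pb y J, D * (1 / ((q * q' * l * l' : ℕ) : ℝ)) =
        D * (1 / q) * (1 / q') * ((∑ p ∈ pb y J, (1 : ℝ) / p) * ∑ p ∈ pb y J, (1 : ℝ) / p) := by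
      rw [Finset.sum_mul_sum, Finset.mul_sum]
      refine Finset.sum_congr rfl fun l _ => ?_
      rw [Finset.mul_sum]
      refine Finset.sum_congr rfl fun l' _ => ?_
      push_cast
      simp only [one_div, mul_inv]
      ring
    rw [h2]
    refine mul_le_mul_of_nonneg_left ?_ (by positivity)
    calc (∑ p ∈ pb y J, (1 : ℝ) / p) * ∑ p ∈ pb y J, (1 : ℝ) / p ≤ (4 / J) * (4 / J) :=
          mul_le_mul h1 h1 h0 (by positivity)
      _ = 16 * (1 / (J : ℝ) ^ 2) := by ring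
  have hT : ∀ q' ∈ Q, ∑ J ∈ Ico j N, ∑ l ∈ pb y J, ∑ l' ∈ pb y J, D * (1 / ((q * q' * l * l' : ℕ) : ℝ)) ≤
      D * (1 / q) * (32 / j) * (1 / q') := by
    intro q' _
    refine (Finset.sum_le_sum (hS q')).trans ?_
    rw [← Finset.mul_sum, ← Finset.mul_sum]
    have h1 := ED_sum j N hj
    have h2 : D * (1 / q) * (1 / q') * (16 * ∑ J ∈ Ico j N, (1 : ℝ) / (J : ℝ) ^ 2) ≤
        D * (1 / q) * (1 / q') * (16 * (2 / j)) := by
      refine mul_le_mul_of_nonneg_left ?_ (by positivity)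
      linarith
    refine h2.trans (le_of_eq ?_)
    ring
  refine (Finset.sum_le_sum hT).trans ?_
  rw [← Finset.mul_sum]
  have h3 : D * (1 / q) * (32 / j) * ∑ q' ∈ Q, (1 : ℝ) / q' ≤ D * (1 / q) * (32 / j) * P :=
    mul_le_mul_of_nonneg_left hQ (by positivity)
  refine h3.trans (le_of_eq ?_)
  ring

/-! ## covering -/

/-- the residue class modulo `q q' l l'` -/
theorem ED_crt (hN3 : N3_stmt) {q q' l l' r r' r'' : ℕ} {v : V4} (h1 : Nat.Coprime q q')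
    (h2 : Nat.Coprime (q * q') l) (h3 : Nat.Coprime (q * q' * l) l') (g1 : InG q r v) (g2 : InG q' r' v)
    (g3 : InG l r v) (g4 : InG l' r'' v) : ∃ ρ : ℕ, InG (q * q' * l * l') ρ v ∧ r ≡ ρ [MOD q] := by
  obtain ⟨ρ1, a1, b1⟩ := Nat.chineseRemainder h1 r r'
  obtain ⟨ρ2, a2, b2⟩ := Nat.chineseRemainder h2 ρ1 r
  obtain ⟨ρ3, a3, b3⟩ := Nat.chineseRemainder h3 ρ2 r''
  have k1 := hN3 q q' r r' ρ1 v h1 g1 g2 a1 b1
  have k2 := hN3 (q * q') l ρ1 r ρ2 v h2 k1 g3 a2 b2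
  have k3 := hN3 (q * q' * l) l' ρ2 r'' ρ3 v h3 k2 g4 a3 b3
  refine ⟨ρ3, k3, ?_⟩
  have c3 : ρ3 ≡ ρ2 [MOD q] := a3.of_dvd ⟨q' * l, by ring⟩
  have c2 : ρ2 ≡ ρ1 [MOD q] := a2.of_dvd ⟨q', rfl⟩
  exact ((c3.trans c2).trans a1).symm

theorem ED_cop {j q l : ℕ} (hq : ∀ p : ℕ, p.Prime → p ∣ q → Nat.log 2 p < j) (hl : l.Prime)
    (hlj : j ≤ Nat.log 2 l) : Nat.Coprime q l :=
  ((Nat.Prime.coprime_iff_not_dvd hl).2 fun h => absurd (hq l hl h) (not_lt.2 hlj)).symm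

theorem ED_small {K u : ℕ} (hu : 1 ≤ u) (h : u < K * (Nat.log 2 u + 1)) : u ≤ 4 * K ^ 2 := by
  have h1 : ∀ n : ℕ, (n + 1) ^ 2 ≤ 4 * 2 ^ n := by
    intro n
    induction n with
    | zero => norm_num
    | succ n ih =>
      rcases Nat.lt_or_ge n 2 with h | h
      · interval_cases n <;> norm_num
      · have h9 : 2 ^ (n + 1) = 2 * 2 ^ n := by ring
        rw [h9]
        nlinarith
  have h2 : 2 ^ Nat.log 2 u ≤ u := Nat.pow_log_le_self 2 (by omega)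
  have h3 := h1 (Nat.log 2 u)
  have h4 : u * u < (K * (Nat.log 2 u + 1)) * (K * (Nat.log 2 u + 1)) := Nat.mul_self_lt_mul_self h
  have h5 : (K * (Nat.log 2 u + 1)) * (K * (Nat.log 2 u + 1)) = K ^ 2 * (Nat.log 2 u + 1) ^ 2 := by ring
  have h6 : K ^ 2 * (Nat.log 2 u + 1) ^ 2 ≤ K ^ 2 * (4 * u) := Nat.mul_le_mul_left _ (by omega)
  have h7 : u * u < u * (4 * K ^ 2) := by
    calc u * u < K ^ 2 * (Nat.log 2 u + 1) ^ 2 := by rw [← h5]; exact h4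
      _ ≤ K ^ 2 * (4 * u) := h6
      _ = u * (4 * K ^ 2) := by ring
  exact (Nat.lt_of_mul_lt_mul_left h7).le

theorem ED_num {K u j : ℕ} (C₁ : ℕ) (hK : 13 ≤ K) (hu : 1 ≤ u) (hj : j = j0 K u) (hj1 : 1 ≤ j) :
    ((u : ℝ) / j) ^ C₁ * (1 / j) ≤ (2 * K : ℝ) ^ (C₁ + 1) * (2 ^ (C₁ + 2) * ((C₁ + 1).factorial : ℝ)) := by
  have hN : 0 < K * (Nat.log 2 u + 1) := by positivity
  have h1 : u < K * (Nat.log 2 u + 1) * (j + 1) := by
    rw [hj]
    exact Nat.lt_mul_div_succ u hN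
  have hj0 : (0 : ℝ) < j := by exact_mod_cast hj1
  have hu0 : (0 : ℝ) < u := by exact_mod_cast hu
  have h2 : (u : ℝ) ≤ K * ((Nat.log 2 u : ℝ) + 1) * (2 * j) := by
    have h3 : u ≤ K * (Nat.log 2 u + 1) * (2 * j) :=
      h1.le.trans (Nat.mul_le_mul_left _ (by omega))
    exact_mod_cast h3
  have hx : (u : ℝ) / j ≤ 2 * K * ((Nat.log 2 u : ℝ) + 1) := by
    rw [div_le_iff₀ hj0]
    linarith
  have hx0 : (0 : ℝ) ≤ (u : ℝ) / j := by positivity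
  have h3 : (1 : ℝ) / j = (u / j) * (1 / u) := by field_simp
  have h4 : (2 : ℝ) ^ Nat.log 2 u ≤ u := by exact_mod_cast Nat.pow_log_le_self 2 (by omega)
  have h5 := ED_log (C₁ + 1) (Nat.log 2 u)
  calc ((u : ℝ) / j) ^ C₁ * (1 / j) = ((u : ℝ) / j) ^ (C₁ + 1) * (1 / u) := by rw [h3]; ring
    _ ≤ (2 * K * ((Nat.log 2 u : ℝ) + 1)) ^ (C₁ + 1) * (1 / u) :=
        mul_le_mul_of_nonneg_right (pow_le_pow_left₀ hx0 hx _) (by positivity)
    _ = (2 * K : ℝ) ^ (C₁ + 1) * (((Nat.log 2 u : ℝ) + 1) ^ (C₁ + 1) * (1 / u)) := by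
        rw [mul_pow]; ring
    _ ≤ (2 * K : ℝ) ^ (C₁ + 1) * (2 ^ (C₁ + 2) * ((C₁ + 1).factorial : ℝ)) := by
        refine mul_le_mul_of_nonneg_left ?_ (by positivity)
        rw [mul_one_div, div_le_iff₀ hu0]
        refine h5.trans ?_
        exact mul_le_mul_of_nonneg_left h4 (by positivity)

theorem ED_msize {u q q' l l' J : ℕ} (hq : (q : ℝ) ≤ (2 : ℝ) ^ ((u : ℝ) / 50)) (hqq : q' ^ 5 ≤ q ^ 6)
    (hl : l < 2 ^ (J + 1)) (hl' : l' < 2 ^ (J + 1)) (hJ : J < u / 100) :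
    ((q * q' * l * l' : ℕ) : ℝ) ≤ (2 : ℝ) ^ ((u : ℝ) / 10) := by
  have hJ1 : ((J : ℝ) + 1) ≤ (u : ℝ) / 100 := by
    have h1 : (J + 1) * 100 ≤ u := by omega
    have h2 : (((J + 1) * 100 : ℕ) : ℝ) ≤ u := by exact_mod_cast h1
    push_cast at h2
    linarith
  have hL : ∀ x : ℕ, x < 2 ^ (J + 1) → (x : ℝ) ≤ (2 : ℝ) ^ ((u : ℝ) / 100) := by
    intro x hx
    have h1 : (x : ℝ) ≤ (2 : ℝ) ^ (J + 1) := by exact_mod_cast hx.le
    refine h1.trans ?_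
    rw [← Real.rpow_natCast]
    refine Real.rpow_le_rpow_of_exponent_le one_le_two ?_
    push_cast
    exact hJ1
  have hq' : (q' : ℝ) ≤ (2 : ℝ) ^ (3 * (u : ℝ) / 125) := by
    have h1 : (q' : ℝ) ^ 5 ≤ ((2 : ℝ) ^ (3 * (u : ℝ) / 125)) ^ 5 := by
      calc (q' : ℝ) ^ 5 ≤ (q : ℝ) ^ 6 := by exact_mod_cast hqq
        _ ≤ ((2 : ℝ) ^ ((u : ℝ) / 50)) ^ 6 := pow_le_pow_left₀ (by positivity) hq 6
        _ = ((2 : ℝ) ^ (3 * (u : ℝ) / 125)) ^ 5 := by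
          rw [← Real.rpow_natCast, ← Real.rpow_natCast, ← Real.rpow_mul (by norm_num), ← Real.rpow_mul (by norm_num)]
          congr 1
          push_cast
          ring
    exact le_of_pow_le_pow_left₀ (by norm_num) (by positivity) h1
  push_cast
  calc (q : ℝ) * q' * l * l' ≤ (2 : ℝ) ^ ((u : ℝ) / 50) * (2 : ℝ) ^ (3 * (u : ℝ) / 125) * (2 : ℝ) ^ ((u : ℝ) / 100) *
        (2 : ℝ) ^ ((u : ℝ) / 100) := by
        refine mul_le_mul (mul_le_mul (mul_le_mul hq hq' (by positivity) (by positivity)) (hL l hl) (by positivity)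
          (by positivity)) (hL l' hl') (by positivity) (by positivity)
    _ = (2 : ℝ) ^ ((u : ℝ) / 50 + 3 * (u : ℝ) / 125 + (u : ℝ) / 100 + (u : ℝ) / 100) := by
        rw [Real.rpow_add two_pos, Real.rpow_add two_pos, Real.rpow_add two_pos]
    _ ≤ (2 : ℝ) ^ ((u : ℝ) / 10) := by
        refine Real.rpow_le_rpow_of_exponent_le one_le_two ?_
        have : (0 : ℝ) ≤ u := by positivity
        linarith

theorem ED_pb {y J l : ℕ} (h : l ∈ pb y J) : l.Prime ∧ y < l ∧ l < 2 ^ (J + 1) ∧ Nat.log 2 l = J := by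
  unfold pb at h
  rw [Finset.mem_filter, Finset.mem_Ico] at h
  obtain ⟨⟨h1, h2⟩, h3, h4⟩ := h
  exact ⟨h3, h4, h2, Nat.log_eq_of_pow_le_of_lt_pow h1 h2⟩

theorem ED_inpb {y l : ℕ} (hl : l.Prime) (hy : y < l) : l ∈ pb y (Nat.log 2 l) := by
  unfold pb
  rw [Finset.mem_filter, Finset.mem_Ico]
  exact ⟨⟨Nat.pow_log_le_self 2 hl.ne_zero, Nat.lt_pow_succ_log_self (by norm_num) l⟩, hl, hy⟩

/-- the pairs with given `q` -/
theorem ED_q (hPAR : PAR_stmt) (hP5 : P5_stmt) (hP1 : P1_stmt) (hN3 : N3_stmt) (hNRT : NRT_stmt) {C : ℝ} {C₁ : ℕ}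
    (hC : 1 ≤ C)
    (hML : ∀ (b : ℝ) (u : ℕ) (s : ℝ), MR b u s → ∀ (y m r j : ℕ) (F : Finset V4), 5 ≤ y → 1 ≤ m → Rgh y m →
      (m : ℝ) ≤ (2 : ℝ) ^ ((u : ℝ) / 10) → 1 ≤ j → j ≤ u →
      (∀ v ∈ F, RV v ≠ 0 ∧ InG m r v ∧ nrm b v ≤ √(2 ^ u) / s ^ 2) →
      ∑ v ∈ F, (4 : ℝ) ^ wj y j m v ≤ C * ((4 ^ u / s ^ 8) / (m : ℝ) ^ 2) * ((u : ℝ) / j) ^ C₁)
    {b : ℝ} {u : ℕ} {s : ℝ} (hM : MR b u s) {y j q : ℕ} (hy : 32 ≤ y) (hj : 1 ≤ j) (hju : 13 * j ≤ u)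
    (hq1 : 1 ≤ q) (hqR : Rgh y q) (hq : ∀ p : ℕ, p.Prime → p ∣ q → Nat.log 2 p < j)
    (hqu : (q : ℝ) ≤ (2 : ℝ) ^ ((u : ℝ) / 50))
    (T : Finset (ℕ × ℕ)) (hT : ∀ p ∈ T, prt j p.1 = q ∧ p.2 < p.1 ∧ Nat.Coprime p.2 p.1 ∧
      Rgh y p.1 ∧ InG p.1 p.2 (vv b p.1 p.2) ∧ Pm p.1 (vv b p.1 p.2) ∧ RV (vv b p.1 p.2) ≠ 0 ∧
      nrm b (vv b p.1 p.2) ≤ √(2 ^ u) / s ^ 2 ∧ (∀ l : ℕ, l.Prime → j ≤ Nat.log 2 l → ¬ l ^ 2 ∣ p.1) ∧
      (∀ l : ℕ, IsoP y (vv b p.1 p.2) p.1 l → 2 * u / 25 < Nat.log 2 l) ∧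
      ∃ l : ℕ, l.Prime ∧ l ∣ p.1 ∧ j ≤ Nat.log 2 l ∧ Nat.log 2 l < u / 100) :
    (T.card : ℝ) ≤ 16 * C * (4 ^ u / s ^ 8) * ((u : ℝ) / j) ^ C₁ * ((1 : ℝ) / q * ∏ J ∈ Sg j q, (4 / J : ℝ)) *
      (32 / j) := by
  classical
  have hy5 : 5 ≤ y := by omega
  have hs := hM.s1
  obtain ⟨hQ1, hQ2⟩ := hP5 y j q hq1 hqR hy
  set D : ℝ := 16 * C * (4 ^ u / s ^ 8) * ((u : ℝ) / j) ^ C₁ with hD
  have hD0 : 0 ≤ D := by
    rw [hD]
    positivity
  have hcov : T ⊆ (QP y j q).biUnion fun q' => (Ico j (u / 100)).biUnion fun J => (pb y J).biUnion fun l =>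
      (pb y J).biUnion fun l' => T.filter (fun p => ∃ ρ : ℕ, InG (q * q' * l * l') ρ (vv b p.1 p.2) ∧ p.2 ≡ ρ [MOD q]) := by
    intro p hp
    obtain ⟨k1, k2, k3, k4, k5, k6, k7, k8, k9, k10, l, hl, hld, hlj, hlu⟩ := hT p hp
    have hd1 : 1 ≤ p.1 := by omega
    obtain ⟨q', hq', hq'c, r', hr', hG'⟩ := hPAR y j p.1 p.2 (vv b p.1 p.2) hy5 hd1 k4 k3 k5 (by
      intro x hx
      have := k10 x hx
      omega)
    rw [k1] at hq'
    obtain ⟨-, -, -, hq'j⟩ := hQ2 q' hq'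
    -- the partner of `l`
    have hni : ¬ IsoP y (vv b p.1 p.2) p.1 l := by
      intro hi
      have := k10 l hi
      omega
    have hex : ∃ l' : ℕ, PV y (vv b p.1 p.2) l' ∧ Nat.log 2 l' = Nat.log 2 l ∧ l' ≠ l := by
      by_contra hcon
      apply hni
      refine ⟨hl, hld, k9 l hl hlj, fun p' h1 h2 => ?_⟩
      by_contra h3
      exact hcon ⟨p', h1, h2, h3⟩
    obtain ⟨l', ⟨hl'p, hl'y, r'', hr'', hG''⟩, hlog, hne⟩ := hex
    have hqd : q ∣ p.1 := by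
      obtain ⟨h, e1, -⟩ := ED_prt j p.1 (by omega)
      rw [k1] at e1
      exact ⟨h, e1.symm⟩
    have c1 : Nat.Coprime q q' := (hq'c.symm).coprime_dvd_left hqd
    have cq : ∀ x : ℕ, x.Prime → j ≤ Nat.log 2 x → Nat.Coprime (q * q') x := fun x hx hxj =>
      Nat.Coprime.mul_left (ED_cop hq hx hxj) (ED_cop hq'j hx hxj)
    have c2 : Nat.Coprime (q * q') l := cq l hl hlj
    have c3 : Nat.Coprime (q * q' * l) l' := by
      refine Nat.Coprime.mul_left (cq l' hl'p (by omega)) ?_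
      rw [Nat.coprime_primes hl hl'p]
      exact fun h => hne h.symm
    obtain ⟨ρ, hρ1, hρ2⟩ := ED_crt hN3 c1 c2 c3 (ED_dvd hqd k5) hG' (ED_dvd hld k5) hG''
    rw [Finset.mem_biUnion]
    refine ⟨q', hq', ?_⟩
    rw [Finset.mem_biUnion]
    refine ⟨Nat.log 2 l, Finset.mem_Ico.2 ⟨hlj, hlu⟩, ?_⟩
    rw [Finset.mem_biUnion]
    refine ⟨l, ED_inpb hl (k4 l hl hld), ?_⟩
    rw [Finset.mem_biUnion]
    refine ⟨l', by rw [← hlog]; exact ED_inpb hl'p hl'y, ?_⟩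
    rw [Finset.mem_filter]
    exact ⟨hp, ρ, hρ1, hρ2⟩
  have hblk : ∀ q' ∈ QP y j q, ∀ J ∈ Ico j (u / 100), ∀ l ∈ pb y J, ∀ l' ∈ pb y J,
      ((T.filter (fun p => ∃ ρ : ℕ, InG (q * q' * l * l') ρ (vv b p.1 p.2) ∧ p.2 ≡ ρ [MOD q])).card : ℝ) ≤
      D * (1 / ((q * q' * l * l' : ℕ) : ℝ)) := by
    intro q' hq' J hJ l hl l' hl'
    obtain ⟨f1, f2, f3, f4⟩ := hQ2 q' hq'
    obtain ⟨a1, a2, a3, a4⟩ := ED_pb hl
    obtain ⟨b1, b2, b3, b4⟩ := ED_pb hl'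
    rw [Finset.mem_Ico] at hJ
    have hl0 := a1.pos
    have hl'0 := b1.pos
    have hm1 : 1 ≤ q * q' * l * l' := Nat.mul_pos (Nat.mul_pos (Nat.mul_pos hq1 f1) hl0) hl'0
    have hmR : Rgh y (q * q' * l * l') := by
      intro x hx hxd
      rcases (hx.dvd_mul).1 hxd with h | h
      · rcases (hx.dvd_mul).1 h with h | h
        · rcases (hx.dvd_mul).1 h with h | h
          · exact hqR x hx h
          · exact f3 x hx h
        · rw [(Nat.prime_dvd_prime_iff_eq hx a1).1 h]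
          exact a2
      · rw [(Nat.prime_dvd_prime_iff_eq hx b1).1 h]
        exact b2
    refine ED_block hN3 hNRT hML hM hy5 hq f4 a1 b1 hm1 hmR (ED_msize hqu f2 a3 b3 hJ.2) hj (by omega) _ ?_
    intro p hp
    obtain ⟨hpT, hρ⟩ := Finset.mem_filter.1 hp
    obtain ⟨k1, k2, k3, k4, k5, k6, k7, k8, k9, -, -⟩ := hT p hpT
    exact ⟨k1, k2, k3, k4, k5, k6, k7, k8, k9, hρ⟩
  have hcard : (T.card : ℝ) ≤ ∑ q' ∈ QP y j q, ∑ J ∈ Ico j (u / 100), ∑ l ∈ pb y J, ∑ l' ∈ pb y J,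
      ((T.filter (fun p => ∃ ρ : ℕ, InG (q * q' * l * l') ρ (vv b p.1 p.2) ∧ p.2 ≡ ρ [MOD q])).card : ℝ) := by
    have h2 := (Finset.card_le_card hcov).trans (Finset.card_biUnion_le.trans
      (Finset.sum_le_sum fun q' _ => Finset.card_biUnion_le.trans
        (Finset.sum_le_sum fun J _ => Finset.card_biUnion_le.trans
          (Finset.sum_le_sum fun l _ => Finset.card_biUnion_le))))
    exact_mod_cast h2
  refine hcard.trans ((Finset.sum_le_sum fun q' hq' => Finset.sum_le_sum fun J hJ => Finset.sum_le_sum fun l hl =>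
    Finset.sum_le_sum fun l' hl' => hblk q' hq' J hJ l hl l' hl').trans ?_)
  exact ED_pbsum hP1 hj (QP y j q) hQ1 q D hD0

/-- the product over the blocks -/
theorem ED_prod {y j q : ℕ} (hy : 32 ≤ y) (hqR : Rgh y q) :
    ∏ J ∈ Sg j q, (4 / J : ℝ) ≤ (∏ J ∈ Sg j q, (4 / J : ℝ)) ^ (7 / 8 : ℝ) := by
  have h0 : ∀ J ∈ Sg j q, (0 : ℝ) ≤ 4 / J ∧ (4 / J : ℝ) ≤ 1 := by
    intro J hJ
    refine ⟨by positivity, ?_⟩
    unfold Sg at hJ
    rw [Finset.mem_filter] at hJ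
    obtain ⟨-, hp⟩ := hJ
    have hlt : ∃ x : ℕ, x.Prime ∧ x ∣ q ∧ Nat.log 2 x = J := by
      by_contra hcon
      have he : q.primeFactors.filter (fun p => Nat.log 2 p = J) = ∅ := by
        rw [Finset.filter_eq_empty_iff]
        intro x hx hxJ
        exact hcon ⟨x, Nat.prime_of_mem_primeFactors hx, Nat.dvd_of_mem_primeFactors hx, hxJ⟩
      unfold bp at hp
      rw [he, Finset.prod_empty] at hp
      exact Nat.not_prime_one hp
    obtain ⟨x, hx1, hx2, hx3⟩ := hlt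
    have hx4 := hqR x hx1 hx2
    have hJ4 : 4 ≤ J := by
      rw [← hx3]
      refine Nat.le_log_of_pow_le (by norm_num) ?_
      norm_num
      omega
    have hJ0 : (0 : ℝ) < J := by
      have : 0 < J := by omega
      exact_mod_cast this
    rw [div_le_one hJ0]
    exact_mod_cast hJ4
  set P : ℝ := ∏ J ∈ Sg j q, (4 / J : ℝ) with hP
  have hP0 : 0 ≤ P := Finset.prod_nonneg fun J hJ => (h0 J hJ).1
  have hP1 : P ≤ 1 := Finset.prod_le_one (fun J hJ => (h0 J hJ).1) (fun J hJ => (h0 J hJ).2)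
  rcases hP0.eq_or_lt with h | h
  · rw [← h]
    positivity
  · calc P = P ^ (1 : ℝ) := (Real.rpow_one P).symm
      _ ≤ P ^ (7 / 8 : ℝ) := Real.rpow_le_rpow_of_exponent_ge h hP1 (by norm_num)

theorem ED (hPAR : PAR_stmt) (hP4 : P4_stmt) (hP5 : P5_stmt) (hP1 : P1_stmt) (hVVP : VVP_stmt) (hN3 : N3_stmt)
    (hML : ML_stmt) (hNRT : NRT_stmt) (hC0 : C0_stmt) : ED_stmt := by
  classical
  obtain ⟨C4, y4, hC4, hP4'⟩ := hP4
  obtain ⟨CM, C₁, hCM, hML'⟩ := hML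
  refine ⟨max y4 32, fun K hK => ⟨2 * 2 ^ (4 * K ^ 2) + 512 * CM * C4 *
    ((2 * K : ℝ) ^ (C₁ + 1) * (2 ^ (C₁ + 2) * ((C₁ + 1).factorial : ℝ))), ?_, ?_⟩⟩
  · have h1 : (1 : ℝ) ≤ 2 ^ (4 * K ^ 2) := one_le_pow₀ (by norm_num)
    have h2 : (0 : ℝ) ≤ 512 * CM * C4 * ((2 * K : ℝ) ^ (C₁ + 1) * (2 ^ (C₁ + 2) * ((C₁ + 1).factorial : ℝ))) := by
      have : (0 : ℝ) ≤ CM := by linarith
      have : (0 : ℝ) ≤ C4 := by linarith
      positivity
    linarith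
  intro b y u s hM hy hu
  have hy4 : y4 ≤ y := (le_max_left _ _).trans hy
  have hy32 : 32 ≤ y := (le_max_right _ _).trans hy
  have hs := hM.s1
  have hE0 : (0 : ℝ) ≤ (2 * K : ℝ) ^ (C₁ + 1) * (2 ^ (C₁ + 2) * ((C₁ + 1).factorial : ℝ)) := by positivity
  set E : ℝ := (2 * K : ℝ) ^ (C₁ + 1) * (2 ^ (C₁ + 2) * ((C₁ + 1).factorial : ℝ)) with hE
  set j := j0 K u with hj
  set T := (SII b y u s).filter (fun p => (prt j p.1 : ℝ) ≤ (2 : ℝ) ^ ((u : ℝ) / 50) ∧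
      (∀ l : ℕ, l.Prime → j ≤ Nat.log 2 l → ¬ l ^ 2 ∣ p.1) ∧
      ∃ l : ℕ, l.Prime ∧ l ∣ p.1 ∧ j ≤ Nat.log 2 l ∧ Nat.log 2 l < u / 100) with hT
  have hCM0 : (0 : ℝ) ≤ CM := by linarith
  have hC40 : (0 : ℝ) ≤ C4 := by linarith
  rcases Nat.eq_zero_or_pos j with hj0 | hj1
  · -- bounded `u`
    have hKK : u < K * (Nat.log 2 u + 1) := by
      rw [hj, j0] at hj0
      exact (Nat.div_eq_zero_iff.1 hj0).resolve_left (by positivity)
    have hub := ED_small hu hKK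
    have hsub : T ⊆ PR y u := by
      intro p hp
      exact (Finset.mem_filter.1 (Finset.mem_filter.1 (Finset.mem_filter.1 (Finset.mem_filter.1 hp).1).1).1).1
    have h1 : (T.card : ℝ) ≤ 2 * 4 ^ u := by
      refine le_trans ?_ (hC0.1 y u)
      exact_mod_cast Finset.card_le_card hsub
    have h2 : s ^ 7 ≤ 2 ^ (4 * K ^ 2) := by
      calc s ^ 7 ≤ ((2 : ℝ) ^ ((u : ℝ) / 400)) ^ 7 := pow_le_pow_left₀ (by linarith) hM.s2 7
        _ = (2 : ℝ) ^ ((u : ℝ) / 400 * 7) := by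
          rw [← Real.rpow_natCast, ← Real.rpow_mul (by norm_num)]
          norm_num
        _ ≤ (2 : ℝ) ^ ((4 * K ^ 2 : ℕ) : ℝ) := by
          refine Real.rpow_le_rpow_of_exponent_le one_le_two ?_
          have h3 : (u : ℝ) ≤ ((4 * K ^ 2 : ℕ) : ℝ) := by exact_mod_cast hub
          have h4 : (0 : ℝ) ≤ u := by positivity
          linarith
        _ = 2 ^ (4 * K ^ 2) := Real.rpow_natCast _ _
    have h3 : (0 : ℝ) ≤ s ^ 7 := by positivity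
    calc (T.card : ℝ) * s ^ 7 ≤ (2 * 4 ^ u) * 2 ^ (4 * K ^ 2) := mul_le_mul h1 h2 h3 (by positivity)
      _ = 2 * 2 ^ (4 * K ^ 2) * 4 ^ u := by ring
      _ ≤ (2 * 2 ^ (4 * K ^ 2) + 512 * CM * C4 * E) * 4 ^ u := by
        refine mul_le_mul_of_nonneg_right ?_ (by positivity)
        have : 0 ≤ 512 * CM * C4 * E := by positivity
        linarith
  · -- the main case
    have hju : 13 * j ≤ u := by
      have h1 : j * (K * (Nat.log 2 u + 1)) ≤ u := by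
        rw [hj, j0]
        exact Nat.div_mul_le_self _ _
      have h2 : 13 ≤ K * (Nat.log 2 u + 1) := le_trans hK (Nat.le_mul_of_pos_right K (by omega))
      calc 13 * j = j * 13 := Nat.mul_comm _ _
        _ ≤ j * (K * (Nat.log 2 u + 1)) := Nat.mul_le_mul_left _ h2
        _ ≤ u := h1
    have hfac : ∀ p ∈ T, p.2 < p.1 ∧ Nat.Coprime p.2 p.1 ∧
      Rgh y p.1 ∧ InG p.1 p.2 (vv b p.1 p.2) ∧ Pm p.1 (vv b p.1 p.2) ∧ RV (vv b p.1 p.2) ≠ 0 ∧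
      nrm b (vv b p.1 p.2) ≤ √(2 ^ u) / s ^ 2 ∧ (∀ l : ℕ, l.Prime → j ≤ Nat.log 2 l → ¬ l ^ 2 ∣ p.1) ∧
      (∀ l : ℕ, IsoP y (vv b p.1 p.2) p.1 l → 2 * u / 25 < Nat.log 2 l) ∧
      (∃ l : ℕ, l.Prime ∧ l ∣ p.1 ∧ j ≤ Nat.log 2 l ∧ Nat.log 2 l < u / 100) ∧
      (prt j p.1 : ℝ) ≤ (2 : ℝ) ^ ((u : ℝ) / 50) := by
      intro p hp
      obtain ⟨hSII, e1, e2, e3⟩ := Finset.mem_filter.1 hp
      obtain ⟨hSB, e4⟩ := Finset.mem_filter.1 hSII
      obtain ⟨hSU, e5, -⟩ := Finset.mem_filter.1 hSB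
      obtain ⟨g1, -, g3, g4, -, -, -⟩ := hVVP b y u s hM.b1 (by omega) hs p hSU
      obtain ⟨hPR, -⟩ := Finset.mem_filter.1 hSU
      obtain ⟨-, e6, e7, e8⟩ := Finset.mem_filter.1 hPR
      exact ⟨e6, e7, e8, g1, e5, g3, g4, e2, e4, e3, e1⟩
    set Q₁ := T.image (fun p => prt j p.1) with hQ₁
    have hQ : ∀ q ∈ Q₁, 1 ≤ q ∧ Rgh y q ∧ (∀ p : ℕ, p.Prime → p ∣ q → Nat.log 2 p < j) ∧
        (q : ℝ) ≤ (2 : ℝ) ^ ((u : ℝ) / 50) := by
      intro q hq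
      obtain ⟨p, hp, rfl⟩ := Finset.mem_image.1 hq
      obtain ⟨e1, e2, e3, -, -, -, -, -, -, -, e11⟩ := hfac p hp
      have hd : p.1 ≠ 0 := by omega
      obtain ⟨h, f1, f2, f3, f4⟩ := ED_prt j p.1 hd
      have hq0 : prt j p.1 ≠ 0 := by
        intro h0
        rw [h0, zero_mul] at f1
        exact hd f1.symm
      refine ⟨Nat.one_le_iff_ne_zero.2 hq0, ?_, f3, e11⟩
      intro x hx hxd
      exact e3 x hx (hxd.trans ⟨h, f1.symm⟩)
    have hj0 : (0 : ℝ) < j := by exact_mod_cast hj1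
    set D : ℝ := 16 * CM * (4 ^ u / s ^ 8) * ((u : ℝ) / j) ^ C₁ with hD
    have hD0 : 0 ≤ D := by
      rw [hD]
      positivity
    have hfib : ∀ q ∈ Q₁, ((T.filter (fun p => prt j p.1 = q)).card : ℝ) ≤
        D * (32 / j) * ((1 : ℝ) / q * (∏ J ∈ Sg j q, (4 / J : ℝ)) ^ (7 / 8 : ℝ)) := by
      intro q hq
      obtain ⟨a1, a2, a3, a4⟩ := hQ q hq
      have h1 := ED_q hPAR hP5 hP1 hN3 hNRT hCM hML' hM hy32 hj1 hju a1 a2 a3 a4
        (T.filter (fun p => prt j p.1 = q)) (by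
          intro p hp
          obtain ⟨hpT, hpq⟩ := Finset.mem_filter.1 hp
          obtain ⟨e1, e2, e3, e4, e5, e6, e7, e8, e9, e10, -⟩ := hfac p hpT
          exact ⟨hpq, e1, e2, e3, e4, e5, e6, e7, e8, e9, e10⟩)
      rw [← hD] at h1
      refine h1.trans ?_
      have h2 := ED_prod (j := j) hy32 a2
      have h3 : (1 : ℝ) / q * ∏ J ∈ Sg j q, (4 / J : ℝ) ≤
          (1 : ℝ) / q * (∏ J ∈ Sg j q, (4 / J : ℝ)) ^ (7 / 8 : ℝ) := mul_le_mul_of_nonneg_left h2 (by positivity)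
      calc D * ((1 : ℝ) / q * ∏ J ∈ Sg j q, (4 / J : ℝ)) * (32 / j)
          = D * (32 / j) * ((1 : ℝ) / q * ∏ J ∈ Sg j q, (4 / J : ℝ)) := by ring
        _ ≤ _ := mul_le_mul_of_nonneg_left h3 (by positivity)
    have hsum : (T.card : ℝ) ≤ D * (32 / j) * C4 := by
      have h1 : (T.card : ℝ) = ∑ q ∈ Q₁, ((T.filter (fun p => prt j p.1 = q)).card : ℝ) := by
        have := Finset.card_eq_sum_card_image (fun p : ℕ × ℕ => prt j p.1) T
        rw [this]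
        push_cast
        rfl
      rw [h1]
      refine (Finset.sum_le_sum hfib).trans ?_
      rw [← Finset.mul_sum]
      refine mul_le_mul_of_nonneg_left ?_ (by positivity)
      exact hP4' y j hy4 Q₁ (fun q hq => ⟨(hQ q hq).1, (hQ q hq).2.1, (hQ q hq).2.2.1⟩)
    have hnum := ED_num (K := K) (u := u) (j := j) C₁ hK hu hj hj1
    rw [← hE] at hnum
    have hs0 : (0 : ℝ) < s := by linarith
    have hDs : D * s ^ 7 ≤ 16 * CM * 4 ^ u * ((u : ℝ) / j) ^ C₁ := by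
      have h1 : D * s ^ 7 = 16 * CM * 4 ^ u * ((u : ℝ) / j) ^ C₁ * (1 / s) := by
        rw [hD]
        field_simp
      rw [h1]
      refine mul_le_of_le_one_right (by positivity) ?_
      rw [div_le_one hs0]
      exact hs
    calc (T.card : ℝ) * s ^ 7 ≤ (D * (32 / j) * C4) * s ^ 7 := mul_le_mul_of_nonneg_right hsum (by positivity)
      _ = (D * s ^ 7) * (32 / j * C4) := by ring
      _ ≤ (16 * CM * 4 ^ u * ((u : ℝ) / j) ^ C₁) * (32 / j * C4) := mul_le_mul_of_nonneg_right hDs (by positivity)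
      _ = 512 * CM * C4 * 4 ^ u * (((u : ℝ) / j) ^ C₁ * (1 / j)) := by ring
      _ ≤ 512 * CM * C4 * 4 ^ u * E := mul_le_mul_of_nonneg_left hnum (by positivity)
      _ = (512 * CM * C4 * E) * 4 ^ u := by ring
      _ ≤ (2 * 2 ^ (4 * K ^ 2) + 512 * CM * C4 * E) * 4 ^ u := by
        refine mul_le_mul_of_nonneg_right ?_ (by positivity)
        have : (0 : ℝ) ≤ 2 * 2 ^ (4 * K ^ 2) := by positivity
        linarith

end Pool.Agent.T6
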